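import Pool.Agent.Helper42.KS.Goals

set_option autoImplicit false

namespace Pool.Agent.Helper42.KS.PkRWT

open Pool.Agent.Helper42.KS

/-- the number of dyadic scales that are relevant at height `lam` -/
lemma scale_bound (κ lam : ℝ) (m j : ℕ) (hκ : 0 < κ) (hlam : 0 < lam) (hm : 1 ≤ m)
    (h : lam ≤ ((2 : ℝ) ^ (j * m)) ^ (-κ)) :
    j ≤ ⌊Real.log (1 / lam) / (κ * Real.log 2)⌋₊ := by
  have hlog2 : 0 < Real.log 2 := Real.log_pos (by norm_num)
  have h1 : Real.log lam ≤ -κ * ((j * m : ℕ) * Real.log 2) := by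
    have h2 := Real.log_le_log hlam h
    rw [Real.log_rpow (by positivity), Real.log_pow] at h2
    exact h2
  have h3 : (j : ℝ) ≤ ((j * m : ℕ) : ℝ) := by
    exact_mod_cast Nat.le_mul_of_pos_right j hm
  apply Nat.le_floor
  rw [le_div_iff₀ (by positivity), one_div, Real.log_inv]
  have h4 : (j : ℝ) * (κ * Real.log 2) ≤ ((j * m : ℕ) : ℝ) * (κ * Real.log 2) :=
    mul_le_mul_of_nonneg_right h3 (by positivity)
  linarith

lemma floor_bound (κ lam ε : ℝ) (hκ : 0 < κ) (hlam : 0 < lam) (hlam1 : lam ≤ 1) (hε : 0 < ε) :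
    ((⌊Real.log (1 / lam) / (κ * Real.log 2)⌋₊ + 1 : ℕ) : ℝ) ≤
      (1 / (ε * (κ * Real.log 2)) + 1) * lam ^ (-ε) := by
  have hlog2 : 0 < Real.log 2 := Real.log_pos (by norm_num)
  have hinv : 1 ≤ 1 / lam := by rw [le_div_iff₀ hlam]; linarith
  have h0 : 0 ≤ Real.log (1 / lam) := Real.log_nonneg hinv
  have h1 : ((⌊Real.log (1 / lam) / (κ * Real.log 2)⌋₊ : ℕ) : ℝ) ≤
      Real.log (1 / lam) / (κ * Real.log 2) := Nat.floor_le (by positivity)
  have h2 : Real.log (1 / lam) ≤ (1 / lam) ^ ε / ε := Real.log_le_rpow_div (by positivity) hε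
  have h3 : (1 / lam) ^ ε = lam ^ (-ε) := by
    rw [one_div, Real.inv_rpow hlam.le, Real.rpow_neg hlam.le]
  have h4 : 1 ≤ lam ^ (-ε) := Real.one_le_rpow_of_pos_of_le_one_of_nonpos hlam hlam1 (by linarith)
  rw [h3] at h2
  push_cast
  have h5 : Real.log (1 / lam) / (κ * Real.log 2) ≤ (lam ^ (-ε) / ε) / (κ * Real.log 2) :=
    div_le_div_of_nonneg_right h2 (by positivity)
  have h6 : (lam ^ (-ε) / ε) / (κ * Real.log 2) = 1 / (ε * (κ * Real.log 2)) * lam ^ (-ε) := by
    field_simp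
  rw [h6] at h5
  linarith

theorem thm : G_C1 → G_C2 → G_C3 → G_RWT := by
  classical
  intro hC1 hC2 hC3 k hk
  obtain ⟨κ, hκ0, hκ1, D3, h3⟩ := hC3 k hk
  obtain ⟨D2, h2⟩ := hC2 k κ hk hκ0 hκ1
  refine ⟨max (max D2 D3) (k + 1), fun d hd p hp => ?_⟩
  have hD2 : D2 ≤ d := le_trans (le_trans (le_max_left _ _) (le_max_left _ _)) hd
  have hD3 : D3 ≤ d := le_trans (le_trans (le_max_right _ _) (le_max_left _ _)) hd
  have hkd : k < d := lt_of_lt_of_le (Nat.lt_succ_self k) (le_trans (le_max_right _ _) hd)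
  obtain ⟨C2, h2⟩ := h2 d hD2
  obtain ⟨ε, hε, hpε⟩ : ∃ ε : ℝ, 0 < ε ∧ p = (d : ℝ) / ((d : ℝ) - k) + ε :=
    ⟨p - (d : ℝ) / ((d : ℝ) - k), by linarith, by ring⟩
  obtain ⟨C3, h3⟩ := h3 d hD3 ε hε
  have hlog2 : 0 < Real.log 2 := Real.log_pos (by norm_num)
  refine ⟨1 + max C3 0 + (1 / (ε * (κ * Real.log 2)) + 1) * max C2 0, ?_⟩
  intro lam E F hlam hlam1 hF
  choose! j n hn hhit using hF
  -- the three parts
  set F1 := F.filter (fun x => lam * (2 : ℝ) ^ (j x * (d - k)) < 1) with hF1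
  set F3 := F.filter (fun x => ((2 : ℝ) ^ (j x * (d - k))) ^ (-κ) ≤ lam) with hF3
  set F2 := F.filter (fun x => 1 ≤ lam * (2 : ℝ) ^ (j x * (d - k)) ∧
    lam ≤ ((2 : ℝ) ^ (j x * (d - k))) ^ (-κ)) with hF2
  have hcover : F ⊆ (F1 ∪ F3) ∪ F2 := by
    intro x hx
    simp only [Finset.mem_union, hF1, hF3, hF2, Finset.mem_filter]
    by_cases ha : lam * (2 : ℝ) ^ (j x * (d - k)) < 1
    · exact Or.inl (Or.inl ⟨hx, ha⟩)
    · by_cases hb : ((2 : ℝ) ^ (j x * (d - k))) ^ (-κ) ≤ lam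
      · exact Or.inl (Or.inr ⟨hx, hb⟩)
      · exact Or.inr ⟨hx, not_lt.mp ha, (not_le.mp hb).le⟩
  have hcard : F.card ≤ F1.card + F3.card + F2.card :=
    (Finset.card_le_card hcover).trans ((Finset.card_union_le _ _).trans
      (Nat.add_le_add_right (Finset.card_union_le _ _) _))
  have hpos1 : (0 : ℝ) ≤ lam ^ (-((d : ℝ) / ((d : ℝ) - k))) := Real.rpow_nonneg hlam.le _
  have hposE : (0 : ℝ) ≤ (E.card : ℝ) := Nat.cast_nonneg _
  have hexp : lam ^ (-p) = lam ^ (-ε) * lam ^ (-((d : ℝ) / ((d : ℝ) - k))) := by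
    rw [← Real.rpow_add hlam, hpε]
    congr 1
    ring
  have hone : 1 ≤ lam ^ (-ε) := Real.one_le_rpow_of_pos_of_le_one_of_nonpos hlam hlam1
    (by linarith)
  have hle : lam ^ (-((d : ℝ) / ((d : ℝ) - k))) ≤ lam ^ (-p) := by
    rw [hexp]
    exact le_mul_of_one_le_left hpos1 hone
  have hposp : (0 : ℝ) ≤ lam ^ (-p) := Real.rpow_nonneg hlam.le _
  -- first part
  have b1 : (F1.card : ℝ) ≤ lam ^ (-p) * E.card := by
    have h := hC1 k d lam E F1 (by omega) hkd hlam hlam1 (fun x hx => by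
      rw [hF1, Finset.mem_filter] at hx
      refine ⟨j x, n x, hn x hx.1, hx.2, ?_⟩
      have h' := hhit x hx.1
      have h'' : (0 : ℝ) < hits k E x (n x) := lt_trans (by positivity) h'
      exact_mod_cast h'')
    exact h.trans (mul_le_mul_of_nonneg_right hle hposE)
  -- third part
  have b3 : (F3.card : ℝ) ≤ max C3 0 * (lam ^ (-p) * E.card) := by
    have h := h3 lam E F3 hlam hlam1 (fun x hx => by
      rw [hF3, Finset.mem_filter] at hx
      exact ⟨j x, n x, hn x hx.1, hx.2, hhit x hx.1⟩)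
    have he : -((d : ℝ) / ((d : ℝ) - k)) - ε = -p := by rw [hpε]; ring
    rw [he, mul_assoc] at h
    exact h.trans (mul_le_mul_of_nonneg_right (le_max_left _ _) (mul_nonneg hposp hposE))
  -- second part
  have b2 : (F2.card : ℝ) ≤ (1 / (ε * (κ * Real.log 2)) + 1) * max C2 0 *
      (lam ^ (-p) * E.card) := by
    set N := ⌊Real.log (1 / lam) / (κ * Real.log 2)⌋₊ with hN
    have hmaps : ∀ x ∈ F2, j x ∈ Finset.range (N + 1) := by
      intro x hx
      rw [hF2, Finset.mem_filter] at hx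
      rw [Finset.mem_range]
      exact Nat.lt_succ_of_le (scale_bound κ lam (d - k) (j x) hκ0 hlam (by omega) hx.2.2)
    have hsum := Finset.card_eq_sum_card_fiberwise (f := j) (s := F2) (t := Finset.range (N + 1))
      (fun x hx => hmaps x hx)
    have hfib : ∀ i ∈ Finset.range (N + 1), ((F2.filter (fun x => j x = i)).card : ℝ) ≤
        max C2 0 * (lam ^ (-((d : ℝ) / ((d : ℝ) - k))) * E.card) := by
      intro i _
      by_cases hne : (F2.filter (fun x => j x = i)).Nonempty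
      · obtain ⟨x0, hx0⟩ := hne
        rw [Finset.mem_filter, hF2, Finset.mem_filter] at hx0
        obtain ⟨⟨hx0F, hx01, hx02⟩, hx0j⟩ := hx0
        rw [hx0j] at hx01 hx02
        have h := h2 i lam E (F2.filter (fun x => j x = i)) hlam hlam1 hx01 hx02 (fun x hx => by
          rw [Finset.mem_filter, hF2, Finset.mem_filter] at hx
          obtain ⟨⟨hxF, _, _⟩, hxj⟩ := hx
          have a1 := hn x hxF
          have a2 := hhit x hxF
          rw [hxj] at a1 a2
          exact ⟨n x, a1, a2⟩)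
        rw [mul_assoc] at h
        exact h.trans (mul_le_mul_of_nonneg_right (le_max_left _ _) (mul_nonneg hpos1 hposE))
      · rw [Finset.not_nonempty_iff_eq_empty] at hne
        rw [hne]
        simp only [Finset.card_empty, Nat.cast_zero]
        exact mul_nonneg (le_max_right _ _) (mul_nonneg hpos1 hposE)
    have hfl := floor_bound κ lam ε hκ0 hlam hlam1 hε
    rw [← hN] at hfl
    have hA : 0 ≤ max C2 0 * (lam ^ (-((d : ℝ) / ((d : ℝ) - k))) * E.card) :=
      mul_nonneg (le_max_right _ _) (mul_nonneg hpos1 hposE)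
    calc (F2.card : ℝ) = ∑ i ∈ Finset.range (N + 1), ((F2.filter (fun x => j x = i)).card : ℝ) := by
          rw [hsum]; push_cast; rfl
      _ ≤ ∑ _i ∈ Finset.range (N + 1),
            max C2 0 * (lam ^ (-((d : ℝ) / ((d : ℝ) - k))) * E.card) := Finset.sum_le_sum hfib
      _ = ((N + 1 : ℕ) : ℝ) * (max C2 0 * (lam ^ (-((d : ℝ) / ((d : ℝ) - k))) * E.card)) := by
          rw [Finset.sum_const, Finset.card_range, nsmul_eq_mul]
      _ ≤ ((1 / (ε * (κ * Real.log 2)) + 1) * lam ^ (-ε)) *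
            (max C2 0 * (lam ^ (-((d : ℝ) / ((d : ℝ) - k))) * E.card)) :=
          mul_le_mul_of_nonneg_right hfl hA
      _ = (1 / (ε * (κ * Real.log 2)) + 1) * max C2 0 * (lam ^ (-p) * E.card) := by
          rw [hexp]; ring
  have hcard' : (F.card : ℝ) ≤ F1.card + F3.card + F2.card := by exact_mod_cast hcard
  calc (F.card : ℝ) ≤ F1.card + F3.card + F2.card := hcard'
    _ ≤ lam ^ (-p) * E.card + max C3 0 * (lam ^ (-p) * E.card) +
        (1 / (ε * (κ * Real.log 2)) + 1) * max C2 0 * (lam ^ (-p) * E.card) :=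
        add_le_add (add_le_add b1 b3) b2
    _ = (1 + max C3 0 + (1 / (ε * (κ * Real.log 2)) + 1) * max C2 0) * lam ^ (-p) * E.card := by
        ring

end Pool.Agent.Helper42.KS.PkRWT
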